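import Pool.Agent.Y529.KL.Tools

/-!
# Frege proofs of the Kneser-Lovász theorem: case A (job 730 for helper528)
-/

set_option autoImplicit false
set_option linter.all false

namespace Pool.Agent.Y528.KL

open Pool.Agent.H555R2.PF Pool.Agent.H555R2.PF.Fm Pool.Agent.TH677.EF
open Sq Z529

/-- the size exponent -/
def cA (k : ℕ) : ℕ := TT k + 2 * k + (4 * k * k + 2 * k + 40)

theorem t_a (F : List Rule) (k : ℕ) (h1 : T_BC F k) (h2 : T_PHPR F) (h3 : ∀ w, T_SS F w)
    (h4 : T_F1 F k) (h5 : T_F6a F k) (h6 : T_F6b F k) (h7 : T_F7 F k) : T_A F k := by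
  intro hk
  obtain ⟨e1, K1, h1⟩ := h1 hk
  obtain ⟨e2, h2⟩ := h2
  choose e3 K3 h3 using h3
  obtain ⟨e4, K4, h4⟩ := h4 hk
  obtain ⟨e5, K5, h5⟩ := h5 hk
  obtain ⟨e6, K6, h6⟩ := h6 hk
  obtain ⟨e7, K7, h7⟩ := h7 hk
  set w0 := TT k + 2 * k with hw0
  set E3 := ∑ w ∈ Finset.range w0, e3 w with hE3
  set KK := ∑ w ∈ Finset.range w0, K3 w with hKK
  set c := cA k with hc
  refine ⟨e1 + e2 + E3 + e4 + e5 + e6 + e7 + 300,
    K1 + KK + K4 + K5 + K6 + K7 + c + 20, ?_⟩
  intro n m M hmn hG hM T hT
  have hmn' : m ≤ n := by omega
  have hp : ∀ a, a ≤ K1 + KK + K4 + K5 + K6 + K7 + c + 20 → (n + 2) ^ a ≤ M := fun a ha =>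
    (pw_mono n ha).trans hM
  obtain ⟨hT1, hT2⟩ := mem_subsLt.1 hT
  set w := T.card + 2 * k - 1 with hw
  have hww : w ∈ Finset.range w0 := by rw [Finset.mem_range]; omega
  have he3 : e3 w ≤ E3 := Finset.single_le_sum (f := e3) (fun _ _ => Nat.zero_le _) hww
  have hK3 : K3 w ≤ KK := Finset.single_le_sum (f := K3) (fun _ _ => Nat.zero_le _) hww
  -- sizes
  set s := (n + 2) ^ c with hs
  have hs1 : 1 ≤ s := pw_pos n c
  have hsM : 1024 * s ≤ M := by
    have := big hM 10 (a := c) (by omega)
    norm_num at this
    exact this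
  have up : ∀ {A : Fm} {b : ℕ}, A.size ≤ (n + 2) ^ b → b ≤ c → A.size ≤ s := fun h hb =>
    h.trans (pw_mono n hb)
  have hcc : c = TT k + 2 * k + (4 * k * k + 2 * k + 40) := rfl
  have zU : ∀ x, (Uf k n m x).size ≤ s := fun x => up (Uf_pow hmn' x) (by omega)
  have zc : ∀ i z, (ctr k n i z).size ≤ s := fun i z => up (ctr_pow i z) (by omega)
  have zst : ∀ i, (isStar k n i).size ≤ s := fun i => up (isStar_pow i) (by omega)
  have zHT : (HT k n m).size ≤ s := up (HT_pow hmn') (by omega)
  have zHI : (HI k n m).size ≤ s := up (HI_pow hmn') (by omega)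
  have zex : (exactly m (fun i => neg (isStar k n i)) T).size ≤ s := by
    refine (AND_pow (n := n) (a := 1) (b := k + 10) (range_length_le hmn') (fun i _ => ?_)
      le_rfl).trans (pw_mono n (by omega))
    split_ifs
    · exact neg_pow (isStar_pow i) (by omega)
    · exact neg_pow (neg_pow (isStar_pow i) le_rfl) (by omega)
  have zpv : ∀ S, (OR ((List.range m).map fun i => pv S i)).size ≤ s := fun S =>
    up (OR_pow (a := 1) (b := 0) (range_length_le hmn') (fun i _ => by simp [pv_size]) le_rfl)
      (by omega)
  have zpvT : ∀ S, (OR (((List.range m).filter fun i => i ∈ T).map fun i => pv S i)).size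
      ≤ (n + 2) ^ 4 := fun S =>
    OR_pow (a := 1) (b := 0) ((List.length_filter_le _ _).trans (range_length_le hmn'))
      (fun i _ => by simp [pv_size]) le_rfl
  have zbc : ∀ N : Finset ℕ, (AND (((subs k n).filter fun S => S ⊆ N).map fun S =>
        OR (((List.range m).filter fun i => i ∈ T).map fun i => pv S i))).size ≤ s := fun N =>
    up (AND_pow (a := k) (b := 4) ((List.length_filter_le _ _).trans (subs_length k n))
      (fun S _ => zpvT S) le_rfl) (by omega)
  have zal : ∀ N : Finset ℕ, (allof n (fun x => Uf k n m x) N).size ≤ (n + 2) ^ (k + 17) :=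
    fun N => allof_pow (fun y _ => Uf_pow hmn' y) N le_rfl
  have zal' : ∀ N : Finset ℕ, (allof n (fun x => Uf k n m x) N).size ≤ s :=
    fun N => up (zal N) (by omega)
  have zxu : ∀ N : Finset ℕ, (exactly n (fun x => Uf k n m x) N).size ≤ (n + 2) ^ (k + 18) :=
    fun N => exactly_pow (fun y _ => Uf_pow hmn' y) N le_rfl
  have zxu' : ∀ N : Finset ℕ, (exactly n (fun x => Uf k n m x) N).size ≤ s :=
    fun N => up (zxu N) (by omega)
  have zssA : (OR ((subs w n).map fun N => allof n (fun x => Uf k n m x) N)).size ≤ s :=
    up (OR_pow (a := w) (b := k + 17) (subs_length w n) (fun N _ => zal N) le_rfl) (by omega)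
  have zssB : (OR ((subsLt w n).map fun N => exactly n (fun x => Uf k n m x) N)).size ≤ s :=
    up (OR_pow (a := w) (b := k + 18) (subsLt_length w n) (fun N _ => zxu N) le_rfl) (by omega)
  have zcR : ∀ x, (OR ((List.range m).map fun i => ctr k n i x)).size ≤ s := fun x =>
    up (OR_pow (a := 1) (b := k + 8) (range_length_le hmn') (fun i _ => ctr_pow i x) le_rfl)
      (by omega)
  set Ex := exactly m (fun i => neg (isStar k n i)) T with hEx
  -- the small sets lemma
  have hSS := h3 w n M (fun x => Uf k n m x) s hG (fun y _ => zU y) (by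
    have h8 : (n + 2) ^ K3 w * (s + 1) ≤ (n + 2) ^ K3 w * (2 ^ 1 * (n + 2) ^ c) :=
      Nat.mul_le_mul_left _ (by omega)
    refine h8.trans ?_
    have h9 := pw_two n (a := c) (b := c + 1) 1 le_rfl
    refine (Nat.mul_le_mul_left _ h9).trans ?_
    rw [← pow_add]
    exact hp _ (by omega))
  set OA := OR ((subs w n).map fun N => allof n (fun x => Uf k n m x) N) with hOA
  set OB := OR ((subsLt w n).map fun N => exactly n (fun x => Uf k n m x) N) with hOB
  have hOs : (or OA OB).size = OA.size + OB.size + 1 := rfl
  have hΓs : (AND [Ex, HT k n m, HI k n m]).size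
      = Ex.size + (HT k n m).size + (HI k n m).size + 6 := by
    simp only [AND, Fm.size]; omega
  have hSS' : Sq F M [Ex, HT k n m, HI k n m] (or OA OB) (E3 + 18) :=
    (weak hG hSS (by simp) (by omega)).up hG (by omega)
  -- elements of the exact set
  have hstar1 : ∀ {Γ : List Fm} {e : ℕ}, Sq F M Γ Ex e → ∀ i, i < m → i ∈ T →
      Sq F M Γ (neg (isStar k n i)) (max e 4 + 4) := by
    intro Γ e h i hi hiT
    have h8 := ANDE (l := List.range m)
      (f := fun y => if y ∈ T then neg (isStar k n y) else neg (neg (isStar k n y))) hG h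
      (x := i) (List.mem_range.2 hi)
    simpa only [if_pos hiT] using h8
  have hstar2 : ∀ {Γ : List Fm} {e : ℕ}, Sq F M Γ Ex e → ∀ i, i < m → i ∉ T →
      Sq F M Γ (neg (neg (isStar k n i))) (max e 4 + 4) := by
    intro Γ e h i hi hiT
    have h8 := ANDE (l := List.range m)
      (f := fun y => if y ∈ T then neg (isStar k n y) else neg (neg (isStar k n y))) hG h
      (x := i) (List.mem_range.2 hi)
    simpa only [if_neg hiT] using h8
  -- case A1
  have caseA1 : Sq F M (OA :: [Ex, HT k n m, HI k n m]) FF (e1 + e4 + 150) := by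
    have hΓs2 : (AND (OA :: [Ex, HT k n m, HI k n m])).size
        = OA.size + Ex.size + (HT k n m).size + (HI k n m).size + 7 := by
      simp only [AND, Fm.size]; omega
    refine (ORE (l := subs w n) (f := fun N => allof n (fun x => Uf k n m x) N) hG
      (a := 4) (b := e1 + e4 + 130) (hyp (A := OA) hG (by simp) (by omega)) (fun N hN => ?_)
      (by rw [FF_size]; omega)).up hG (by omega)
    obtain ⟨hN1, hN2⟩ := mem_subs.1 hN
    set AU := allof n (fun x => Uf k n m x) N with hAU
    have zAU : AU.size ≤ s := zal' N
    set Γ := AU :: (OA :: [Ex, HT k n m, HI k n m]) with hΓ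
    have hΓs3 : (AND Γ).size
        = AU.size + OA.size + Ex.size + (HT k n m).size + (HI k n m).size + 8 := by
      simp only [hΓ, AND, Fm.size]; omega
    set BC := AND (((subs k n).filter fun S => S ⊆ N).map fun S =>
        OR (((List.range m).filter fun i => i ∈ T).map fun i => pv S i)) with hBC
    have zBC : BC.size ≤ s := zbc N
    have hb := h1 n m M hmn hG (hp _ (by omega)) N T hN1 hT1 (by omega) (by omega)
    have hHI : Sq F M Γ (HI k n m) 4 := hyp hG (by simp [hΓ]) (by omega)
    have hBC : Sq F M Γ BC (e4 + 80) := by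
      refine (ANDI (l := (subs k n).filter fun S => S ⊆ N)
        (f := fun S => OR (((List.range m).filter fun i => i ∈ T).map fun i => pv S i)) hG
        (e := e4 + 70) (fun S hS => ?_) (by
          change _ + BC.size + 1 ≤ M
          omega)).up hG (by omega)
      obtain ⟨hS1, hS2⟩ := List.mem_filter.1 hS
      have hSN : S ⊆ N := by simpa using hS2
      obtain ⟨hSr, hSk⟩ := mem_subs.1 hS1
      set P := OR ((List.range m).map fun i => pv S i) with hP
      set Q := OR (((List.range m).filter fun i => i ∈ T).map fun i => pv S i) with hQ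
      have zP : P.size ≤ s := zpv S
      have zQ : Q.size ≤ s := up (zpvT S) (by omega)
      have hHT : Sq F M Γ (HT k n m) 4 := hyp hG (by simp [hΓ]) (by omega)
      have hPS : Sq F M Γ P 8 :=
        ANDE (l := subs k n) (f := fun S => OR ((List.range m).map fun i => pv S i)) hG hHT hS1
      refine (ORE (l := List.range m) (f := fun i => pv S i) hG (b := e4 + 50) hPS
        (fun i hi => ?_) (by omega)).up hG (by omega)
      have hi' := List.mem_range.1 hi
      have hΓs4 : (AND (pv S i :: Γ)).size = (AND Γ).size + 2 := by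
        simp only [AND, Fm.size, pv_size]; omega
      have hpvi : Sq F M (pv S i :: Γ) (pv S i) 4 := hyp hG (by simp) (by
        rw [pv_size]; omega)
      by_cases hiT : i ∈ T
      · refine (ORI (l := (List.range m).filter fun i => i ∈ T) (f := fun i => pv S i) hG hpvi
          (List.mem_filter.2 ⟨hi, by simpa using hiT⟩) (by
            change _ + Q.size + 1 ≤ M
            omega)).up hG (by omega)
      · have hf1 := h4 n m M hmn hG (hp _ (by omega)) S i hS1 hi'
        set AS := allof n (fun x => Uf k n m x) S with hAS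
        have zAS : AS.size ≤ s := zal' S
        have hAUi : Sq F M (pv S i :: Γ) AU 4 := hyp hG (by simp [hΓ]) (by omega)
        have hASi : Sq F M (pv S i :: Γ) AS 13 := by
          refine ANDI (l := (List.range n).filter fun y => y ∈ S)
            (f := fun x => Uf k n m x) hG (e := 8) (fun y hy => ?_) (by
              change _ + AS.size + 1 ≤ M
              omega)
          obtain ⟨hy1, hy2⟩ := List.mem_filter.1 hy
          have hyS : y ∈ S := by simpa using hy2
          exact ANDE (l := (List.range n).filter fun y => y ∈ N) (f := fun x => Uf k n m x) hG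
            hAUi (List.mem_filter.2 ⟨hy1, by simpa using hSN hyS⟩)
        have zsti := zst i
        have hns : Sq F M (pv S i :: Γ) (neg (isStar k n i)) (e4 + 25) :=
          (ctx2 hG hf1 hpvi hASi (by simp only [Fm.size]; omega)).up hG (by omega)
        have hEi : Sq F M (pv S i :: Γ) Ex 4 := hyp hG (by simp [hΓ]) (by omega)
        have hnn := hstar2 hEi i hi' hiT
        exact (contra hG hns hnn (by omega)).up hG (by omega)
    exact (ctx2 hG hb hBC hHI (by rw [FF_size]; omega)).up hG (by omega)
  -- case A2
  have caseA2 : Sq F M (OB :: [Ex, HT k n m, HI k n m]) FF (e2 + e5 + e6 + e7 + 150) := by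
    have hΓs2 : (AND (OB :: [Ex, HT k n m, HI k n m])).size
        = OB.size + Ex.size + (HT k n m).size + (HI k n m).size + 7 := by
      simp only [AND, Fm.size]; omega
    refine (ORE (l := subsLt w n) (f := fun N => exactly n (fun x => Uf k n m x) N) hG
      (a := 4) (b := e2 + e5 + e6 + e7 + 130) (hyp (A := OB) hG (by simp) (by omega))
      (fun N hN => ?_) (by rw [FF_size]; omega)).up hG (by omega)
    obtain ⟨hN1, hN2⟩ := mem_subsLt.1 hN
    set XU := exactly n (fun x => Uf k n m x) N with hXU
    have zXU : XU.size ≤ s := zxu' N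
    set Γ := XU :: (OB :: [Ex, HT k n m, HI k n m]) with hΓ
    have hΓs3 : (AND Γ).size
        = XU.size + OB.size + Ex.size + (HT k n m).size + (HI k n m).size + 8 := by
      simp only [hΓ, AND, Fm.size]; omega
    have hXUi : Sq F M Γ XU 4 := hyp hG (by simp [hΓ]) (by omega)
    have hEi : Sq F M Γ Ex 4 := hyp hG (by simp [hΓ]) (by omega)
    have hcount : ∀ (N : Finset ℕ) (n : ℕ), N ⊆ Finset.range n →
        ((List.range n).filter fun y => y ∉ N).length + N.card = n := by
      intro N n hN
      have h8 : ((List.range n).filter fun y => y ∉ N).toFinset = Finset.range n \ N := by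
        ext y
        simp
      have h9 : ((List.range n).filter fun y => y ∉ N).Nodup :=
        List.Nodup.filter _ List.nodup_range
      rw [← List.toFinset_card_of_nodup h9, h8, Finset.card_sdiff_of_subset hN,
        Finset.card_range]
      have := Finset.card_le_card hN
      rw [Finset.card_range] at this
      omega
    have hA := hcount N n hN1
    have hB := hcount T m hT1
    have hlenM : n + 2 ≤ M := by
      have := hp 1 (by omega)
      rwa [pow_one] at this
    refine (h2 ℕ ℕ ((List.range n).filter fun y => y ∉ N) ((List.range m).filter fun y => y ∉ T)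
      (fun z i => ctr k n i z) M (e5 + e6 + e7 + 100) Γ hG
      (List.Nodup.filter _ List.nodup_range) (List.Nodup.filter _ List.nodup_range)
      (by omega) (by omega) ?_ ?_).up hG (by omega)
    · intro z hz
      obtain ⟨hz1, hz2⟩ := List.mem_filter.1 hz
      have hz1' := List.mem_range.1 hz1
      have hzN : z ∉ N := by simpa using hz2
      have hnU : Sq F M Γ (neg (Uf k n m z)) 8 := by
        have h8 := ANDE (l := List.range n)
          (f := fun y => if y ∈ N then Uf k n m y else neg (Uf k n m y)) hG hXUi
          (x := z) hz1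
        simp only [if_neg hzN] at h8
        exact h8.up hG (by omega)
      have hf7 := h7 n m M hmn hG (hp _ (by omega)) z hz1'
      set P := OR ((List.range m).map fun i => ctr k n i z) with hP
      have zP : P.size ≤ s := zcR z
      have hPi : Sq F M Γ P (e7 + 20) := (ctx1 hG hf7 hnU (by omega)).up hG (by omega)
      set Q := OR (((List.range m).filter fun y => y ∉ T).map fun i => ctr k n i z) with hQ
      have zQ : Q.size ≤ s :=
        up (OR_pow (a := 1) (b := k + 8) ((List.length_filter_le _ _).trans
          (range_length_le hmn')) (fun i _ => ctr_pow i z) le_rfl) (by omega)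
      refine (ORE (l := List.range m) (f := fun i => ctr k n i z) hG (b := e5 + 50) hPi
        (fun i hi => ?_) (by omega)).up hG (by omega)
      have hi' := List.mem_range.1 hi
      have zci := zc i z
      have zsti := zst i
      have hΓs4 : (AND (ctr k n i z :: Γ)).size = (ctr k n i z).size + (AND Γ).size + 1 := rfl
      have hci : Sq F M (ctr k n i z :: Γ) (ctr k n i z) 4 := hyp hG (by simp) (by omega)
      by_cases hiT : i ∈ T
      · have hf6 := h5 n m M hmn hG (hp _ (by omega)) i z hz1'
        have hst : Sq F M (ctr k n i z :: Γ) (isStar k n i) (e5 + 16) :=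
          (ctx1 hG hf6 hci (by omega)).up hG (by omega)
        have hEi2 : Sq F M (ctr k n i z :: Γ) Ex 4 := hyp hG (by simp [hΓ]) (by omega)
        have hns := hstar1 hEi2 i hi' hiT
        exact (contra hG hst hns (by omega)).up hG (by omega)
      · refine (ORI (l := (List.range m).filter fun y => y ∉ T) (f := fun i => ctr k n i z) hG
          hci (List.mem_filter.2 ⟨hi, by simpa using hiT⟩) (by
            change _ + Q.size + 1 ≤ M
            omega)).up hG (by omega)
    · intro z hz z' hz' i hi hzz
      have hz1 := List.mem_range.1 (List.mem_filter.1 hz).1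
      have hz1' := List.mem_range.1 (List.mem_filter.1 hz').1
      have hf6 := h6 n m M hmn hG (hp _ (by omega)) i z z' hz1 hz1' hzz
      have zci := zc i z
      have zci' := zc i z'
      refine (negI hG (e := e6 + 30) ?_).up hG (by omega)
      set An := and (ctr k n i z) (ctr k n i z') with hAn
      have zAn : An.size = (ctr k n i z).size + (ctr k n i z').size + 1 := rfl
      have hΓs4 : (AND (An :: Γ)).size = An.size + (AND Γ).size + 1 := rfl
      have h8 : Sq F M (An :: Γ) An 4 := hyp hG (by simp) (by omega)
      exact (ctx2 hG hf6 (andL hG h8) (andR hG h8) (by rw [FF_size]; omega)).up hG (by omega)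
  exact (orE hG hSS' caseA1 caseA2).up hG (by omega)

end Pool.Agent.Y528.KL
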