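import Pool.Agent.Y529.KL.Tools

/-!
# Frege proofs of the Kneser-Lovász theorem: counting step of case B (job 728 for helper528)
-/

set_option autoImplicit false
set_option linter.all false

namespace Pool.Agent.Y528.KL

open Pool.Agent.H555R2.PF Pool.Agent.H555R2.PF.Fm Pool.Agent.TH677.EF
open Sq Z529

namespace Z529

/-! ### positions -/

theorem posn_lt {S : Finset ℕ} {x : ℕ} (hx : x ∈ S) : posn S x < S.card := by
  refine Finset.card_lt_card ?_
  rw [Finset.ssubset_iff_of_subset (Finset.filter_subset _ _)]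
  exact ⟨x, hx, by simp⟩

theorem posn_strict {S : Finset ℕ} {x y : ℕ} (hx : x ∈ S) (hxy : x < y) :
    posn S x < posn S y := by
  refine Finset.card_lt_card ?_
  rw [Finset.ssubset_iff_of_subset]
  · refine ⟨x, ?_, by simp⟩
    rw [Finset.mem_filter]
    exact ⟨hx, hxy⟩
  · intro z hz
    rw [Finset.mem_filter] at hz ⊢
    exact ⟨hz.1, hz.2.trans hxy⟩

theorem posn_inj {S : Finset ℕ} {x y : ℕ} (hx : x ∈ S) (hy : y ∈ S)
    (h : posn S x = posn S y) : x = y := by
  rcases lt_trichotomy x y with h1 | h1 | h1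
  · have := posn_strict hx h1
    omega
  · exact h1
  · have := posn_strict hy h1
    omega

theorem posn_surj {S : Finset ℕ} {r : ℕ} (hr : r < S.card) : ∃ x ∈ S, posn S x = r := by
  have h1 : S.image (posn S) = Finset.range S.card := by
    refine Finset.eq_of_subset_of_card_le ?_ ?_
    · intro y hy
      obtain ⟨x, hx, rfl⟩ := Finset.mem_image.1 hy
      exact Finset.mem_range.2 (posn_lt hx)
    · rw [Finset.card_range, Finset.card_image_of_injOn]
      intro x hx y hy hxy
      exact posn_inj hx hy hxy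
  have h2 : r ∈ S.image (posn S) := by
    rw [h1]
    exact Finset.mem_range.2 hr
  obtain ⟨x, hx, h3⟩ := Finset.mem_image.1 h2
  exact ⟨x, hx, h3⟩

/-! ### the relation -/

/-- centres -/
noncomputable def D0 (k n : ℕ) (p q : ℕ × ℕ) : Fm := if q.2 = p.2 then ctr k n q.1 p.1 else FF

open Classical in
/-- elements of `C₀` -/
noncomputable def D1 (k n m : ℕ) (C₀ T : Finset ℕ) (p q : ℕ × ℕ) : Fm :=
  if q.2 = 2 * k * k ∧ p.1 ∈ C₀ ∧ q.1 ∈ T ∧ posn T q.1 = posn C₀ p.1 * Wk k + p.2 then
    Uf k n m p.1 else FF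

/-- sets with a distinguished element -/
noncomputable def PR (k n w : ℕ) : List (Finset ℕ × ℕ) :=
  ((subs (Wk k) n).product (List.range n)).filter fun r => r.2 ∈ r.1 ∧ posn r.1 r.2 = w

open Classical in
/-- edges -/
noncomputable def D2 (k n m : ℕ) (C₀ : Finset ℕ) (p q : ℕ × ℕ) : Fm :=
  if q.2 < 2 * k * k ∧ p.1 ∉ C₀ then
    OR ((PR k n p.2).map fun r => and (LG k n m p.1 r.1) (inc k n q.1 q.2 p.1 r.2)) else FF

/-- the relation -/
noncomputable def RR (k n m : ℕ) (C₀ T : Finset ℕ) (p q : ℕ × ℕ) : Fm :=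
  or (D0 k n p q) (or (D1 k n m C₀ T p q) (D2 k n m C₀ p q))

theorem mem_PR {k n w : ℕ} {r : Finset ℕ × ℕ} : r ∈ PR k n w ↔
    (r.1 ⊆ Finset.range n ∧ r.1.card = Wk k) ∧ r.2 < n ∧ r.2 ∈ r.1 ∧ posn r.1 r.2 = w := by
  unfold PR
  rw [List.mem_filter]
  have h1 : r ∈ (subs (Wk k) n).product (List.range n) ↔ r.1 ∈ subs (Wk k) n ∧ r.2 ∈ List.range n :=
    List.mem_product
  rw [h1, mem_subs, List.mem_range]
  simp
  tauto

/-! ### sizes -/

section sizes

variable {k n m : ℕ}

theorem FF_pow {c : ℕ} (hc : 2 ≤ c) : FF.size ≤ (n + 2) ^ c := by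
  rw [FF_size]
  calc 4 = 2 ^ 2 := by norm_num
    _ ≤ (n + 2) ^ 2 := Nat.pow_le_pow_left (by omega) 2
    _ ≤ _ := pw_mono n hc

theorem D0_pow (p q : ℕ × ℕ) : (D0 k n p q).size ≤ (n + 2) ^ (k + 8) := by
  unfold D0
  split_ifs
  · exact ctr_pow _ _
  · exact FF_pow (by omega)

theorem D1_pow (h : m ≤ n) (C₀ T : Finset ℕ) (p q : ℕ × ℕ) :
    (D1 k n m C₀ T p q).size ≤ (n + 2) ^ (k + 13) := by
  unfold D1
  split_ifs
  · exact Uf_pow h _
  · exact FF_pow (by omega)

theorem PR_length (w : ℕ) : (PR k n w).length ≤ (n + 2) ^ (2 * k * k + 2) := by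
  unfold PR
  refine (List.length_filter_le _ _).trans ?_
  refine (List.length_product _ _).le.trans ?_
  have h1 := subs_length (Wk k) n
  rw [List.length_range]
  have h2 : (n + 2) ^ (2 * k * k + 2) = (n + 2) ^ Wk k * (n + 2) := by
    rw [← pow_succ]
    rfl
  rw [h2]
  exact Nat.mul_le_mul h1 (by omega)

theorem LI_pow (h : m ≤ n) (x : ℕ) (Y : Finset ℕ) (i j x' y : ℕ) :
    (and (LG k n m x Y) (inc k n i j x' y)).size ≤ (n + 2) ^ (4 * k * k + 2 * k + 27) :=
  and_pow (LG_pow h x Y) ((inc_pow _ _ _ _).trans (pw_mono n (by nlinarith))) (by omega)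

theorem D2_pow (h : m ≤ n) (C₀ : Finset ℕ) (p q : ℕ × ℕ) :
    (D2 k n m C₀ p q).size ≤ (n + 2) ^ (6 * k * k + 2 * k + 32) := by
  unfold D2
  split_ifs
  · exact OR_pow (a := 2 * k * k + 2) (b := 4 * k * k + 2 * k + 27) (PR_length _)
      (fun r _ => LI_pow h _ _ _ _ _ _) (by nlinarith)
  · exact FF_pow (by omega)

theorem RR_pow (h : m ≤ n) (C₀ T : Finset ℕ) (p q : ℕ × ℕ) :
    (RR k n m C₀ T p q).size ≤ (n + 2) ^ (6 * k * k + 2 * k + 36) := by
  have h0 := (D0_pow (k := k) (n := n) p q).trans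
    (pw_mono n (b := 6 * k * k + 2 * k + 32) (by nlinarith))
  have h1 := (D1_pow (k := k) h C₀ T p q).trans
    (pw_mono n (b := 6 * k * k + 2 * k + 32) (by nlinarith))
  have h2 := D2_pow (k := k) h C₀ p q
  have h3 := pw_two n (a := 6 * k * k + 2 * k + 32) (b := 6 * k * k + 2 * k + 36) 4 (by omega)
  have h4 := pw_pos n (6 * k * k + 2 * k + 32)
  unfold RR
  simp only [Fm.size]
  omega

end sizes

end Z529

theorem t_b2 (F : List Rule) (k : ℕ) (h1 : T_PHPR F) (h2 : T_F4 F k) (h3 : T_F5 F k)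
    (h4 : T_F6a F k) (h5 : T_F6b F k) (h6 : T_F7 F k) : T_B2 F k := by
  classical
  intro hk
  obtain ⟨e1, h1⟩ := h1
  obtain ⟨e2, K2, h2⟩ := h2 hk
  obtain ⟨e3, K3, h3⟩ := h3 hk
  obtain ⟨e4, K4, h4⟩ := h4 hk
  obtain ⟨e5, K5, h5⟩ := h5 hk
  obtain ⟨e6, K6, h6⟩ := h6 hk
  set c := 8 * k * k + 2 * k + 50 with hc
  refine ⟨e1 + e2 + e3 + e4 + e5 + e6 + 500, K2 + K3 + K4 + K5 + K6 + c + 20, ?_⟩
  intro n m M hmn hG hM C₀ T hC hT hCT hTT
  have hmn' : m ≤ n := by omega
  have hp : ∀ a, a ≤ K2 + K3 + K4 + K5 + K6 + c + 20 → (n + 2) ^ a ≤ M := fun a ha =>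
    (pw_mono n ha).trans hM
  -- sizes
  set s := (n + 2) ^ c with hs
  have hs1 : 1 ≤ s := pw_pos n c
  have hsM : 1024 * s ≤ M := by
    have := big hM 10 (a := c) (by omega)
    norm_num at this
    exact this
  have q2 : 2 * k * k = 2 * (k * k) := by ring
  have q4 : 4 * k * k = 4 * (k * k) := by ring
  have q6 : 6 * k * k = 6 * (k * k) := by ring
  have q8 : 8 * k * k = 8 * (k * k) := by ring
  have up : ∀ {A : Fm} {b : ℕ}, A.size ≤ (n + 2) ^ b → b ≤ c → A.size ≤ s := fun h hb =>
    h.trans (pw_mono n hb)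
  have zFF : FF.size = 4 := FF_size
  have zs4 : 4 ≤ s := by
    have := FF_pow (n := n) (c := c) (by omega)
    rwa [FF_size] at this
  have zU : ∀ x, (Uf k n m x).size ≤ s := fun x => up (Uf_pow hmn' x) (by omega)
  have zc : ∀ i z, (ctr k n i z).size ≤ s := fun i z => up (ctr_pow i z) (by omega)
  have zst : ∀ i, (isStar k n i).size ≤ s := fun i => up (isStar_pow i) (by omega)
  have znst : (nst k n m T).size ≤ s := up (nst_pow hmn' T) (by omega)
  have zcR : ∀ x, (OR ((List.range m).map fun i => ctr k n i x)).size ≤ s := fun x =>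
    up (OR_pow (a := 1) (b := k + 8) (range_length_le hmn') (fun i _ => ctr_pow i x) le_rfl)
      (by omega)
  have zLow : ∀ x, (Low k n m x).size ≤ s := fun x => up (Low_pow hmn' x) (by omega)
  have zHigh : ∀ x, (High k n m x).size ≤ s := fun x => up (High_pow hmn' x) (by omega)
  have zLG : ∀ x Y, (LG k n m x Y).size ≤ s := fun x Y => up (LG_pow hmn' x Y) (by omega)
  have zinc : ∀ i h x y, (inc k n i h x y).size ≤ s := fun i h x y =>
    up (inc_pow i h x y) (by omega)
  have zAdj : ∀ x y, (Adj k n m x y).size ≤ s := fun x y => up (Adj_pow hmn' x y) (by omega)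
  have zadj : ∀ x Y, (allof n (fun y => Adj k n m x y) Y).size ≤ s := fun x Y =>
    up (adjs_pow hmn' x Y) (by omega)
  have zLI : ∀ x Y i j x' y, (and (LG k n m x Y) (inc k n i j x' y)).size ≤ s :=
    fun x Y i j x' y => up (LI_pow hmn' _ _ _ _ _ _) (by omega)
  have zD0 : ∀ p q, (D0 k n p q).size ≤ s := fun p q => up (D0_pow p q) (by omega)
  have zD1 : ∀ p q, (D1 k n m C₀ T p q).size ≤ s := fun p q => up (D1_pow hmn' C₀ T p q) (by omega)
  have zD2 : ∀ p q, (D2 k n m C₀ p q).size ≤ s := fun p q => up (D2_pow hmn' C₀ p q) (by omega)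
  have zRR : ∀ p q, (RR k n m C₀ T p q).size ≤ s := fun p q =>
    up (RR_pow hmn' C₀ T p q) (by omega)
  set B : List (ℕ × ℕ) := (List.range m).product (List.range (Wk k)) with hB
  set A : List (ℕ × ℕ) := (List.range n).product (List.range (Wk k)) with hA
  have lB : B.length = m * Wk k :=
    (List.length_product _ _).trans (by rw [List.length_range, List.length_range])
  have lA : A.length = n * Wk k :=
    (List.length_product _ _).trans (by rw [List.length_range, List.length_range])
  have mB : ∀ {q : ℕ × ℕ}, q ∈ B ↔ q.1 < m ∧ q.2 < Wk k := by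
    intro q
    have : q ∈ B ↔ q.1 ∈ List.range m ∧ q.2 ∈ List.range (Wk k) := List.mem_product
    rw [this, List.mem_range, List.mem_range]
  have mA : ∀ {q : ℕ × ℕ}, q ∈ A ↔ q.1 < n ∧ q.2 < Wk k := by
    intro q
    have : q ∈ A ↔ q.1 ∈ List.range n ∧ q.2 ∈ List.range (Wk k) := List.mem_product
    rw [this, List.mem_range, List.mem_range]
  have zB : ∀ p, (OR (B.map fun q => RR k n m C₀ T p q)).size ≤ s := fun p =>
    up (OR_pow (n := n) (a := 2 * k * k + 2) (b := 6 * k * k + 2 * k + 36) (by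
      rw [lB, mul_comm]
      have h9 : (n + 2) ^ (2 * k * k + 2) = (n + 2) ^ Wk k * (n + 2) := by
        rw [← pow_succ]
        rfl
      rw [h9]
      exact Nat.mul_le_mul (const_le n _) (by omega)) (fun q _ => RR_pow hmn' C₀ T p q) le_rfl)
      (by omega)
  set L := AND (((List.range n).filter fun x => x ∉ C₀).map fun x => neg (Low k n m x)) with hL
  have zL : L.size ≤ s :=
    up (AND_pow (n := n) (a := 1) (b := 4 * k * k + 2 * k + 29)
      ((List.length_filter_le _ _).trans (range_length_le le_rfl))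
      (fun x _ => neg_pow (Low_pow hmn' x) le_rfl) le_rfl) (by omega)
  set Γ : List Fm := [L, nst k n m T] with hΓ
  have zΓ : (AND Γ).size = L.size + (nst k n m T).size + 5 := by
    simp only [hΓ, AND, Fm.size]; omega
  have hWk : Wk k = 2 * k * k + 1 := rfl
  -- a colour of `T` is no star
  have hnst : ∀ {Γ' : List Fm}, (AND Γ').size ≤ 20 * s → nst k n m T ∈ Γ' → ∀ i, i < m → i ∈ T →
      Sq F M Γ' (neg (isStar k n i)) 8 := by
    intro Γ' hz hm i hi hiT
    have h8 : Sq F M Γ' (nst k n m T) 4 := hyp hG hm (by omega)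
    exact (ANDE (l := (List.range m).filter fun y => y ∈ T) (f := fun i => neg (isStar k n i)) hG
      h8 (x := i) (List.mem_filter.2 ⟨List.mem_range.2 hi, by simpa using hiT⟩)).up hG (by omega)
  have hff : ∀ {Γ' : List Fm}, (AND Γ').size ≤ 20 * s → FF ∈ Γ' → Sq F M Γ' FF 4 := by
    intro Γ' hz hm
    exact hyp hG hm (by omega)
  -- the cases of injectivity
  have c00 : ∀ {Γ' : List Fm} {p p' q : ℕ × ℕ}, (AND Γ').size ≤ 20 * s → p.1 < n → p'.1 < n →
      p ≠ p' → D0 k n p q ∈ Γ' → D0 k n p' q ∈ Γ' → Sq F M Γ' FF (e5 + 30) := by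
    intro Γ' p p' q hz hp1 hp1' hne hm hm'
    unfold D0 at hm hm'
    split_ifs at hm with ha
    · split_ifs at hm' with ha'
      · have hx : p.1 ≠ p'.1 := fun h => hne (Prod.ext h (ha.symm.trans ha'))
        have hf := h5 n m M hmn hG (hp _ (by omega)) q.1 p.1 p'.1 hp1 hp1' hx
        have z1 := zc q.1 p.1
        have z2 := zc q.1 p'.1
        exact (ctx2 hG hf (hyp hG hm (by omega)) (hyp hG hm' (by omega)) (by omega)).up hG
          (by omega)
      · exact (hff hz hm').up hG (by omega)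
    · exact (hff hz hm).up hG (by omega)
  have c01 : ∀ {Γ' : List Fm} {p p' q : ℕ × ℕ}, (AND Γ').size ≤ 20 * s → p.1 < n → q.1 < m →
      nst k n m T ∈ Γ' →
      D0 k n p q ∈ Γ' → D1 k n m C₀ T p' q ∈ Γ' → Sq F M Γ' FF (e4 + 30) := by
    intro Γ' p p' q hz hp1 hq1 hn hm hm'
    unfold D0 at hm
    unfold D1 at hm'
    split_ifs at hm with ha
    · split_ifs at hm' with ha'
      · obtain ⟨-, -, hqT, -⟩ := ha'
        have hf := h4 n m M hmn hG (hp _ (by omega)) q.1 p.1 hp1
        have z1 := zc q.1 p.1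
        have z2 := zst q.1
        have h8 : Sq F M Γ' (isStar k n q.1) (e4 + 16) :=
          (ctx1 hG hf (hyp hG hm (by omega)) (by omega)).up hG (by omega)
        exact (contraF hG h8 (hnst hz hn q.1 hq1 hqT) (by omega)).up hG (by omega)
      · exact (hff hz hm').up hG (by omega)
    · exact (hff hz hm).up hG (by omega)
  have c02 : ∀ {Γ' : List Fm} {p p' q : ℕ × ℕ}, (AND Γ').size ≤ 20 * s → p.1 < n → q.1 < m →
      p'.1 < n →
      D0 k n p q ∈ Γ' → D2 k n m C₀ p' q ∈ Γ' → Sq F M Γ' FF (e3 + e4 + 60) := by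
    intro Γ' p p' q hz hp1 hq1 hp1' hm hm'
    unfold D0 at hm
    have hm2 := hm'
    unfold D2 at hm'
    split_ifs at hm with ha
    · split_ifs at hm' with ha'
      · obtain ⟨hq2, hpC⟩ := ha'
        set OO := OR ((PR k n p'.2).map fun r =>
          and (LG k n m p'.1 r.1) (inc k n q.1 q.2 p'.1 r.2)) with hOO
        have zOO : OO.size ≤ s := by
          have := zD2 p' q
          unfold D2 at this
          rwa [if_pos ⟨hq2, hpC⟩] at this
        refine (ORE (l := PR k n p'.2) (f := fun r =>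
          and (LG k n m p'.1 r.1) (inc k n q.1 q.2 p'.1 r.2)) hG (b := e3 + e4 + 40)
          (hyp (A := OO) hG hm' (by omega)) (fun r hr => ?_) (by omega)).up hG (by omega)
        obtain ⟨-, hr2, -, -⟩ := mem_PR.1 hr
        have z3 := zLI p'.1 r.1 q.1 q.2 p'.1 r.2
        set An := and (LG k n m p'.1 r.1) (inc k n q.1 q.2 p'.1 r.2) with hAn
        have zΓ'' : (AND (An :: Γ')).size = An.size + (AND Γ').size + 1 := rfl
        have h8 : Sq F M (An :: Γ') An 4 := hyp hG (by simp) (by omega)
        have hf := h4 n m M hmn hG (hp _ (by omega)) q.1 p.1 hp1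
        have hf' := h3 n m M hmn hG (hp _ (by omega)) q.1 q.2 p'.1 r.2 hq1 hq2 hp1' hr2
        have z1 := zc q.1 p.1
        have z2 := zst q.1
        have h9 : Sq F M (An :: Γ') (isStar k n q.1) (e4 + 16) :=
          (ctx1 hG hf (hyp hG (by simp [hm]) (by omega)) (by omega)).up hG (by omega)
        have h10 : Sq F M (An :: Γ') (neg (isStar k n q.1)) (e3 + 25) :=
          (ctx1 hG hf' (andR hG h8) (by simp only [Fm.size]; omega)).up hG (by omega)
        exact (contraF hG h9 h10 (by omega)).up hG (by omega)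
      · exact (hff hz hm').up hG (by omega)
    · exact (hff hz hm).up hG (by omega)
  have c11 : ∀ {Γ' : List Fm} {p p' q : ℕ × ℕ}, (AND Γ').size ≤ 20 * s → p.2 < Wk k →
      p'.2 < Wk k → p ≠ p' →
      D1 k n m C₀ T p q ∈ Γ' → D1 k n m C₀ T p' q ∈ Γ' → Sq F M Γ' FF 4 := by
    intro Γ' p p' q hz hp2 hp2' hne hm hm'
    unfold D1 at hm hm'
    split_ifs at hm with ha
    · split_ifs at hm' with ha'
      · exfalso
        obtain ⟨-, hpC, -, hpos⟩ := ha
        obtain ⟨-, hpC', -, hpos'⟩ := ha'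
        have h8 : posn C₀ p.1 * Wk k + p.2 = posn C₀ p'.1 * Wk k + p'.2 := hpos.symm.trans hpos'
        have hW : 0 < Wk k := by omega
        have h9 : posn C₀ p.1 = posn C₀ p'.1 := by
          have e1 : (posn C₀ p.1 * Wk k + p.2) / Wk k = posn C₀ p.1 := by
            rw [mul_comm, Nat.mul_add_div hW, Nat.div_eq_of_lt hp2, add_zero]
          have e2 : (posn C₀ p'.1 * Wk k + p'.2) / Wk k = posn C₀ p'.1 := by
            rw [mul_comm, Nat.mul_add_div hW, Nat.div_eq_of_lt hp2', add_zero]
          rw [← e1, ← e2, h8]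
        have h10 : p.1 = p'.1 := posn_inj hpC hpC' h9
        rw [h9] at h8
        exact hne (Prod.ext h10 (by omega))
      · exact hff hz hm'
    · exact hff hz hm
  have c12 : ∀ {Γ' : List Fm} {p p' q : ℕ × ℕ}, (AND Γ').size ≤ 20 * s →
      D1 k n m C₀ T p q ∈ Γ' → D2 k n m C₀ p' q ∈ Γ' → Sq F M Γ' FF 4 := by
    intro Γ' p p' q hz hm hm'
    unfold D1 at hm
    unfold D2 at hm'
    split_ifs at hm with ha
    · split_ifs at hm' with ha'
      · exfalso
        have := ha.1
        have := ha'.1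
        omega
      · exact hff hz hm'
    · exact hff hz hm
  have c22 : ∀ {Γ' : List Fm} {p p' q : ℕ × ℕ}, (AND Γ').size ≤ 20 * s → p.1 < n → p'.1 < n →
      q.1 < m → p ≠ p' →
      D2 k n m C₀ p q ∈ Γ' → D2 k n m C₀ p' q ∈ Γ' → Sq F M Γ' FF (e2 + 100) := by
    intro Γ' p p' q hz hp1 hp1' hq1 hne hm hm'
    have zD := zD2 p q
    have zD' := zD2 p' q
    unfold D2 at hm hm' zD zD'
    split_ifs at hm with ha
    · split_ifs at hm' with ha'
      · rw [if_pos ha] at zD
        rw [if_pos ha'] at zD'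
        obtain ⟨hq2, -⟩ := ha
        set OO := OR ((PR k n p.2).map fun r =>
          and (LG k n m p.1 r.1) (inc k n q.1 q.2 p.1 r.2)) with hOO
        set OO' := OR ((PR k n p'.2).map fun r =>
          and (LG k n m p'.1 r.1) (inc k n q.1 q.2 p'.1 r.2)) with hOO'
        refine (ORE (l := PR k n p.2) (f := fun r =>
          and (LG k n m p.1 r.1) (inc k n q.1 q.2 p.1 r.2)) hG (b := e2 + 80)
          (hyp (A := OO) hG hm (by omega)) (fun r hr => ?_) (by omega)).up hG (by omega)
        obtain ⟨⟨hr0, hr00⟩, hr2, hr3, hr4⟩ := mem_PR.1 hr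
        have z3 := zLI p.1 r.1 q.1 q.2 p.1 r.2
        set An := and (LG k n m p.1 r.1) (inc k n q.1 q.2 p.1 r.2) with hAn
        have zΓ1 : (AND (An :: Γ')).size = An.size + (AND Γ').size + 1 := rfl
        refine (ORE (l := PR k n p'.2) (f := fun r =>
          and (LG k n m p'.1 r.1) (inc k n q.1 q.2 p'.1 r.2)) hG (b := e2 + 60)
          (hyp (A := OO') hG (by simp [hm']) (by omega)) (fun r' hr' => ?_) (by omega)).up hG
          (by omega)
        obtain ⟨⟨hr0', hr00'⟩, hr2', hr3', hr4'⟩ := mem_PR.1 hr'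
        have z3' := zLI p'.1 r'.1 q.1 q.2 p'.1 r'.2
        set An' := and (LG k n m p'.1 r'.1) (inc k n q.1 q.2 p'.1 r'.2) with hAn'
        have zΓ2 : (AND (An' :: An :: Γ')).size = An'.size + (An.size + (AND Γ').size + 1) + 1 :=
          rfl
        have h8 : Sq F M (An' :: An :: Γ') An 4 := hyp hG (by simp) (by omega)
        have h8' : Sq F M (An' :: An :: Γ') An' 4 := hyp hG (by simp) (by omega)
        by_cases hxy : (p.1, r.2) = (p'.1, r'.2)
        · have hx : p.1 = p'.1 := (Prod.mk.inj hxy).1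
          have hy : r.2 = r'.2 := (Prod.mk.inj hxy).2
          have hY : r.1 ≠ r'.1 := by
            intro hY
            apply hne
            refine Prod.ext hx ?_
            rw [← hr4, ← hr4', hY, hy]
          have z5 := zLG p.1 r.1
          have z6 := zLG p.1 r'.1
          have hu : Sq F M [LG k n m p.1 r.1, LG k n m p.1 r'.1] FF 20 :=
            least_unique hG (subs_nodup (Wk k) n) (mem_subs.2 ⟨hr0, hr00⟩)
              (mem_subs.2 ⟨hr0', hr00'⟩) hY (by
                change 2 * (LG k n m p.1 r.1).size + 2 * (LG k n m p.1 r'.1).size + 20 ≤ M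
                omega)
          have h9 := andL hG h8'
          rw [← hx] at h9
          exact (ctx2 hG hu (andL hG h8) h9 (by omega)).up hG (by omega)
        · have hf := h2 n m M hmn hG (hp _ (by omega)) q.1 q.2 p.1 r.2 p'.1 r'.2 hq1 hq2 hp1 hr2
            hp1' hr2' hxy
          exact (ctx2 hG hf (andR hG h8) (andR hG h8') (by omega)).up hG (by omega)
      · exact (hff hz hm').up hG (by omega)
    · exact (hff hz hm).up hG (by omega)
  -- the pigeonhole principle
  have hmW : B.length < A.length := by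
    rw [lA, lB]
    exact Nat.mul_lt_mul_of_pos_right (by omega) (by omega)
  have hAM : A.length + 2 ≤ M := by
    rw [lA]
    have h9 : (n + 2) ^ (2 * k * k + 3) ≤ M := hp _ (by omega)
    have h10 : Wk k ≤ (n + 2) ^ Wk k := const_le n _
    have h11 : (n + 2) ^ (2 * k * k + 3) = (n + 2) ^ Wk k * ((n + 2) * (n + 2)) := by
      rw [hWk, ← pow_two, ← pow_add]
    rw [h11] at h9
    have h12 : n * Wk k ≤ (n + 2) ^ Wk k * n := by
      rw [mul_comm]
      exact Nat.mul_le_mul_right _ h10
    have h13 : (n + 2) ^ Wk k * n + (n + 2) ^ Wk k * 2 = (n + 2) ^ Wk k * (n + 2) := by ring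
    have h14 : 1 ≤ (n + 2) ^ Wk k := pw_pos n _
    have h15 : (n + 2) ^ Wk k * (n + 2) ≤ (n + 2) ^ Wk k * ((n + 2) * (n + 2)) :=
      Nat.mul_le_mul_left _ (by nlinarith)
    omega
  refine (h1 (ℕ × ℕ) (ℕ × ℕ) A B (fun p q => RR k n m C₀ T p q) M
    (e2 + e3 + e4 + e5 + e6 + 400) Γ hG
    (List.Nodup.product List.nodup_range List.nodup_range)
    (List.Nodup.product List.nodup_range List.nodup_range) hmW hAM ?_ ?_).up hG (by omega)
  · -- total
    rintro p hpA
    obtain ⟨hp1, hp2⟩ := mA.1 hpA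
    have zBp := zB p
    set OB := OR (B.map fun q => RR k n m C₀ T p q) with hOB
    have zUp := zU p.1
    -- the three ways
    have w0 : ∀ {Γ' : List Fm} {e : ℕ} {q : ℕ × ℕ}, (AND Γ').size ≤ 20 * s → q ∈ B →
        Sq F M Γ' (D0 k n p q) e → Sq F M Γ' OB (e + 20) := by
      intro Γ' e q hz hq h8
      have z1 := zRR p q
      have z2 : (RR k n m C₀ T p q).size =
        (D0 k n p q).size + ((D1 k n m C₀ T p q).size + (D2 k n m C₀ p q).size + 1) + 1 := rfl
      have h9 : Sq F M Γ' (RR k n m C₀ T p q) (e + 3) := orL hG h8 (by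
        simp only [Fm.size]; omega)
      exact (ORI (l := B) (f := fun q => RR k n m C₀ T p q) hG h9 hq (by
        change _ + OB.size + 1 ≤ M
        omega)).up hG (by omega)
    have w1 : ∀ {Γ' : List Fm} {e : ℕ} {q : ℕ × ℕ}, (AND Γ').size ≤ 20 * s → q ∈ B →
        Sq F M Γ' (D1 k n m C₀ T p q) e → Sq F M Γ' OB (e + 20) := by
      intro Γ' e q hz hq h8
      have z1 := zRR p q
      have z2 : (RR k n m C₀ T p q).size =
        (D0 k n p q).size + ((D1 k n m C₀ T p q).size + (D2 k n m C₀ p q).size + 1) + 1 := rfl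
      have h9 : Sq F M Γ' (or (D1 k n m C₀ T p q) (D2 k n m C₀ p q)) (e + 3) := orL hG h8 (by
        omega)
      have h10 : Sq F M Γ' (RR k n m C₀ T p q) (e + 6) := orR hG h9 (by
        simp only [Fm.size]; omega)
      exact (ORI (l := B) (f := fun q => RR k n m C₀ T p q) hG h10 hq (by
        change _ + OB.size + 1 ≤ M
        omega)).up hG (by omega)
    have w2 : ∀ {Γ' : List Fm} {e : ℕ} {q : ℕ × ℕ}, (AND Γ').size ≤ 20 * s → q ∈ B →
        Sq F M Γ' (D2 k n m C₀ p q) e → Sq F M Γ' OB (e + 20) := by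
      intro Γ' e q hz hq h8
      have z1 := zRR p q
      have z2 : (RR k n m C₀ T p q).size =
        (D0 k n p q).size + ((D1 k n m C₀ T p q).size + (D2 k n m C₀ p q).size + 1) + 1 := rfl
      have h9 : Sq F M Γ' (or (D1 k n m C₀ T p q) (D2 k n m C₀ p q)) (e + 3) := orR hG h8 (by
        omega)
      have h10 : Sq F M Γ' (RR k n m C₀ T p q) (e + 6) := orR hG h9 (by
        simp only [Fm.size]; omega)
      exact (ORI (l := B) (f := fun q => RR k n m C₀ T p q) hG h10 hq (by
        change _ + OB.size + 1 ≤ M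
        omega)).up hG (by omega)
    have zΓU : (AND (Uf k n m p.1 :: Γ)).size = (Uf k n m p.1).size + (AND Γ).size + 1 := rfl
    have zΓN : (AND (neg (Uf k n m p.1) :: Γ)).size
        = (Uf k n m p.1).size + 1 + (AND Γ).size + 1 := rfl
    refine (cases hG (X := Uf k n m p.1) (a := e2 + e3 + e4 + e5 + e6 + 390)
      (b := e2 + e3 + e4 + e5 + e6 + 390) ?_ ?_).up hG (by omega)
    · -- `p.1` is not a centre
      by_cases hC0 : p.1 ∈ C₀
      · have hr : posn C₀ p.1 * Wk k + p.2 < T.card := by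
          have h8 := posn_lt hC0
          calc posn C₀ p.1 * Wk k + p.2 < posn C₀ p.1 * Wk k + Wk k := by omega
            _ = (posn C₀ p.1 + 1) * Wk k := by ring
            _ ≤ C₀.card * Wk k := Nat.mul_le_mul_right _ (by omega)
            _ ≤ T.card := hCT
        obtain ⟨i, hi, hpos⟩ := posn_surj hr
        have him : i < m := Finset.mem_range.1 (hT hi)
        have hq : (i, 2 * k * k) ∈ B := mB.2 ⟨him, by show 2 * k * k < Wk k; omega⟩
        have h8 : Sq F M (Uf k n m p.1 :: Γ) (D1 k n m C₀ T p (i, 2 * k * k)) 4 := by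
          unfold D1
          rw [if_pos ⟨rfl, hC0, hi, hpos⟩]
          exact hyp hG (by simp) (by omega)
        exact (w1 (by omega) hq h8).up hG (by omega)
      · have hLi : Sq F M (Uf k n m p.1 :: Γ) L 4 := hyp hG (by simp [hΓ]) (by omega)
        have hnl : Sq F M (Uf k n m p.1 :: Γ) (neg (Low k n m p.1)) 8 :=
          (ANDE (l := (List.range n).filter fun x => x ∉ C₀) (f := fun x => neg (Low k n m x)) hG
            hLi (x := p.1) (List.mem_filter.2 ⟨List.mem_range.2 hp1, by simpa using hC0⟩)).up hG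
            (by omega)
        have zLp := zLow p.1
        have zHp := zHigh p.1
        have zLo : (Low k n m p.1).size = (Uf k n m p.1).size + ((High k n m p.1).size + 1) + 1 :=
          rfl
        have hH : Sq F M (Uf k n m p.1 :: Γ) (High k n m p.1) 40 := by
          refine (byContra hG (e := 30) ?_).up hG (by omega)
          have z7 : (AND (neg (High k n m p.1) :: Uf k n m p.1 :: Γ)).size =
            (High k n m p.1).size + 1 + ((Uf k n m p.1).size + (AND Γ).size + 1) + 1 := rfl
          have h9 : Sq F M (neg (High k n m p.1) :: Uf k n m p.1 :: Γ) (Low k n m p.1) 8 :=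
            andI hG (hyp (A := Uf k n m p.1) hG (by simp) (by omega))
              (hyp (A := neg (High k n m p.1)) hG (by simp) (by simp only [Fm.size]; omega))
              (by simp only [Fm.size]; omega)
          have h10 := weak (Γ' := neg (High k n m p.1) :: Uf k n m p.1 :: Γ) hG hnl
            (fun X hX => List.mem_cons_of_mem _ hX) (by simp only [Fm.size]; omega)
          exact (contraF hG h9 h10 (by omega)).up hG (by omega)
        have zLGs : (OR ((subs (Wk k) n).map fun Y => LG k n m p.1 Y)).size ≤ s :=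
          up (OR_pow (a := Wk k) (b := 4 * k * k + 2 * k + 25) (subs_length _ n)
            (fun Y _ => LG_pow hmn' p.1 Y) le_rfl) (by omega)
        have znA : (AND ((subs (Wk k) n).map fun Y =>
            neg (allof n (fun y => Adj k n m p.1 y) Y))).size ≤ s :=
          up (AND_pow (a := Wk k) (b := 2 * k * k + 2 * k + 22) (subs_length _ n)
            (fun Y _ => neg_pow (adjs_pow hmn' p.1 Y) le_rfl) le_rfl) (by omega)
        set OL := OR ((subs (Wk k) n).map fun Y => LG k n m p.1 Y) with hOL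
        have hle : Sq F M [High k n m p.1] OL 100 :=
          least_exists hG (subs_nodup (Wk k) n) (P := fun Y => allof n
            (fun y => Adj k n m p.1 y) Y) (by
              change 3 * (High k n m p.1).size + 3 * OL.size + 3 * (AND ((subs (Wk k) n).map
                fun Y => neg (allof n (fun y => Adj k n m p.1 y) Y))).size + 30 ≤ M
              omega)
        have hOLi : Sq F M (Uf k n m p.1 :: Γ) OL 120 :=
          (ctx1 hG hle hH (by omega)).up hG (by omega)
        refine (ORE (l := subs (Wk k) n) (f := fun Y => LG k n m p.1 Y) hG (b := 200) hOLi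
          (fun Y hY => ?_) (by omega)).up hG (by omega)
        obtain ⟨hY1, hY2⟩ := mem_subs.1 hY
        have zLGY := zLG p.1 Y
        set GY := LG k n m p.1 Y with hGY
        have z8 : (AND (GY :: Uf k n m p.1 :: Γ)).size
          = GY.size + ((Uf k n m p.1).size + (AND Γ).size + 1) + 1 := rfl
        have h11 : Sq F M (GY :: Uf k n m p.1 :: Γ) GY 4 := hyp hG (by simp) (by omega)
        have h12 : Sq F M (GY :: Uf k n m p.1 :: Γ) (allof n (fun y => Adj k n m p.1 y) Y) 7 :=
          least_prop hG h11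
        obtain ⟨y, hy, hpos⟩ := posn_surj (S := Y) (r := p.2) (by omega)
        have hyn : y < n := Finset.mem_range.1 (hY1 hy)
        have h13 : Sq F M (GY :: Uf k n m p.1 :: Γ) (Adj k n m p.1 y) 11 :=
          (ANDE (l := (List.range n).filter fun y => y ∈ Y) (f := fun y => Adj k n m p.1 y) hG
            h12 (x := y) (List.mem_filter.2 ⟨List.mem_range.2 hyn, by simpa using hy⟩)).up hG
            (by omega)
        refine (ORE (l := slots k m) (f := fun sl => inc k n sl.1 sl.2 p.1 y) hG (b := 100) h13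
          (fun sl hsl => ?_) (by omega)).up hG (by omega)
        have hsl' : sl.1 ∈ List.range m ∧ sl.2 ∈ List.range (2 * k * k) := List.mem_product.1 hsl
        rw [List.mem_range, List.mem_range] at hsl'
        have zin := zinc sl.1 sl.2 p.1 y
        set IN := inc k n sl.1 sl.2 p.1 y with hIN
        have z9 : (AND (IN :: GY :: Uf k n m p.1 :: Γ)).size
          = IN.size + (GY.size + ((Uf k n m p.1).size + (AND Γ).size + 1) + 1) + 1 := rfl
        have hq : (sl.1, sl.2) ∈ B := mB.2 ⟨hsl'.1, by show sl.2 < Wk k; omega⟩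
        have zD2p := zD2 p (sl.1, sl.2)
        have h14 : Sq F M (IN :: GY :: Uf k n m p.1 :: Γ) (D2 k n m C₀ p (sl.1, sl.2)) 40 := by
          unfold D2 at zD2p ⊢
          rw [if_pos ⟨hsl'.2, hC0⟩] at zD2p ⊢
          dsimp only at zD2p ⊢
          refine (ORI (l := PR k n p.2) (f := fun r =>
            and (LG k n m p.1 r.1) (inc k n sl.1 sl.2 p.1 r.2)) (x := (Y, y)) (e := 8) hG ?_ ?_
            (by omega)).up hG (by omega)
          · exact andI hG (hyp (A := GY) hG (by simp) (by omega))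
              (hyp (A := IN) hG (by simp) (by omega)) (by
                change (AND (IN :: GY :: Uf k n m p.1 :: Γ)).size + (GY.size + IN.size + 1) + 1
                  ≤ M
                omega)
          · exact mem_PR.2 ⟨⟨hY1, hY2⟩, hyn, hy, hpos⟩
        exact (w2 (by omega) hq h14).up hG (by omega)
    · -- `p.1` is a centre
      have hf := h6 n m M hmn hG (hp _ (by omega)) p.1 hp1
      have zCR := zcR p.1
      set OC := OR ((List.range m).map fun i => ctr k n i p.1) with hOC
      have hOCi : Sq F M (neg (Uf k n m p.1) :: Γ) OC (e6 + 20) :=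
        (ctx1 hG hf (hyp (A := neg (Uf k n m p.1)) hG (by simp) (by
          simp only [Fm.size]; omega)) (by omega)).up hG (by omega)
      refine (ORE (l := List.range m) (f := fun i => ctr k n i p.1) hG (b := 60) hOCi
        (fun i hi => ?_) (by omega)).up hG (by omega)
      have hi' := List.mem_range.1 hi
      have zci := zc i p.1
      have z8 : (AND (ctr k n i p.1 :: neg (Uf k n m p.1) :: Γ)).size
        = (ctr k n i p.1).size + ((Uf k n m p.1).size + 1 + (AND Γ).size + 1) + 1 := rfl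
      have hq : (i, p.2) ∈ B := mB.2 ⟨hi', hp2⟩
      have h8 : Sq F M (ctr k n i p.1 :: neg (Uf k n m p.1) :: Γ) (D0 k n p (i, p.2)) 4 := by
        unfold D0
        rw [if_pos rfl]
        dsimp only
        exact hyp hG (by simp) (by omega)
      exact (w0 (by omega) hq h8).up hG (by omega)
  · -- injective
    intro p hpA p' hpA' q hqB hne
    obtain ⟨hp1, hp2⟩ := mA.1 hpA
    obtain ⟨hp1', hp2'⟩ := mA.1 hpA'
    obtain ⟨hq1, hq2⟩ := mB.1 hqB
    refine (negI hG (e := e2 + e3 + e4 + e5 + e6 + 390) ?_).up hG (by omega)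
    have z1 := zRR p q
    have z1' := zRR p' q
    set R := RR k n m C₀ T p q with hR
    set R' := RR k n m C₀ T p' q with hR'
    set Γ0 := and R R' :: Γ with hΓ0
    have zΓ0 : (AND Γ0).size = (R.size + R'.size + 1) + (AND Γ).size + 1 := rfl
    have h8 : Sq F M Γ0 (and R R') 4 := hyp hG (by simp [hΓ0]) (by
      simp only [Fm.size]; omega)
    have h9 : Sq F M Γ0 (or (D0 k n p q) (or (D1 k n m C₀ T p q) (D2 k n m C₀ p q))) 7 :=
      andL hG h8
    have h9' : Sq F M Γ0 (or (D0 k n p' q) (or (D1 k n m C₀ T p' q) (D2 k n m C₀ p' q))) 7 :=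
      andR hG h8
    have zR : R.size =
      (D0 k n p q).size + ((D1 k n m C₀ T p q).size + (D2 k n m C₀ p q).size + 1) + 1 := rfl
    have zR' : R'.size =
      (D0 k n p' q).size + ((D1 k n m C₀ T p' q).size + (D2 k n m C₀ p' q).size + 1) + 1 := rfl
    -- a rule for three disjuncts
    have or3 : ∀ {Γ' : List Fm} {X Y Z : Fm} {e a : ℕ}, (AND Γ').size ≤ 15 * s →
        X.size + Y.size + Z.size ≤ s →
        Sq F M Γ' (or X (or Y Z)) a → Sq F M (X :: Γ') FF e → (∀ Γ'', (∀ W ∈ Γ', W ∈ Γ'') →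
          Y ∈ Γ'' → (AND Γ'').size ≤ (AND Γ').size + 3 * s → Sq F M Γ'' FF e) →
        (∀ Γ'', (∀ W ∈ Γ', W ∈ Γ'') → Z ∈ Γ'' → (AND Γ'').size ≤ (AND Γ').size + 3 * s →
          Sq F M Γ'' FF e) →
        Sq F M Γ' FF (a + e + 20) := by
      intro Γ' X Y Z e a hz hsz h10 hX hY hZ
      have z11 : (AND (or Y Z :: Γ')).size = (Y.size + Z.size + 1) + (AND Γ').size + 1 := rfl
      have z12 : (AND (Y :: or Y Z :: Γ')).size
        = Y.size + ((Y.size + Z.size + 1) + (AND Γ').size + 1) + 1 := rfl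
      have z13 : (AND (Z :: or Y Z :: Γ')).size
        = Z.size + ((Y.size + Z.size + 1) + (AND Γ').size + 1) + 1 := rfl
      refine (orE hG h10 hX (c := e + 12) ?_).up hG (by omega)
      refine (orE hG (a := 4) (b := e) (c := e) (hyp (A := or Y Z) hG (by simp) (by
        simp only [Fm.size]; omega)) ?_ ?_).up hG (by omega)
      · exact hY _ (fun W hW => by simp [hW]) (by simp) (by omega)
      · exact hZ _ (fun W hW => by simp [hW]) (by simp) (by omega)
    have hnm : nst k n m T ∈ Γ0 := by simp [hΓ0, hΓ]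
    set E := e2 + e3 + e4 + e5 + 200 with hE
    refine (or3 (by omega) (by omega) h9 (e := E + 60) ?_ ?_ ?_).up hG (by omega)
    · have z14 : (AND (D0 k n p q :: Γ0)).size = (D0 k n p q).size + (AND Γ0).size + 1 := rfl
      have h10 := (weak (Γ' := D0 k n p q :: Γ0) hG h9'
        (fun X hX => List.mem_cons_of_mem _ hX) (by simp only [Fm.size]; omega)).up
        (b := 18) hG (by omega)
      refine (or3 (by omega) (by omega) h10 (e := E) ?_ ?_ ?_).up hG (by omega)
      · have z15 : (AND (D0 k n p' q :: D0 k n p q :: Γ0)).size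
          = (D0 k n p' q).size + ((D0 k n p q).size + (AND Γ0).size + 1) + 1 := rfl
        exact (c00 (p := p) (p' := p') (q := q) (by omega) hp1 hp1' hne (by simp) (by simp)).up hG
          (by omega)
      · intro Γ'' hs1 hs2 hs3
        exact (c01 (p := p) (p' := p') (q := q) (by omega) hp1 hq1 (hs1 _ (by simp [hnm]))
          (hs1 _ (by simp)) hs2).up hG (by omega)
      · intro Γ'' hs1 hs2 hs3
        exact (c02 (p := p) (p' := p') (q := q) (by omega) hp1 hq1 hp1' (hs1 _ (by simp)) hs2).up hG (by omega)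
    · intro Γ1 hs1 hs2 hs3
      have h10 := (weak (Γ' := Γ1) hG h9' hs1 (by simp only [Fm.size]; omega)).up
        (b := 18) hG (by omega)
      refine (or3 (by omega) (by omega) h10 (e := E) ?_ ?_ ?_).up hG (by omega)
      · have z15 : (AND (D0 k n p' q :: Γ1)).size = (D0 k n p' q).size + (AND Γ1).size + 1 := rfl
        exact (c01 (p := p') (p' := p) (q := q) (by omega) hp1' hq1 (List.mem_cons_of_mem _ (hs1 _ hnm))
          (by simp) (List.mem_cons_of_mem _ hs2)).up hG (by omega)
      · intro Γ'' ht1 ht2 ht3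
        exact (c11 (p := p) (p' := p') (q := q) (by omega) hp2 hp2' hne (ht1 _ hs2) ht2).up hG (by omega)
      · intro Γ'' ht1 ht2 ht3
        exact (c12 (p := p) (p' := p') (q := q) (by omega) (ht1 _ hs2) ht2).up hG (by omega)
    · intro Γ1 hs1 hs2 hs3
      have h10 := (weak (Γ' := Γ1) hG h9' hs1 (by simp only [Fm.size]; omega)).up
        (b := 18) hG (by omega)
      refine (or3 (by omega) (by omega) h10 (e := E) ?_ ?_ ?_).up hG (by omega)
      · have z15 : (AND (D0 k n p' q :: Γ1)).size = (D0 k n p' q).size + (AND Γ1).size + 1 := rfl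
        exact (c02 (p := p') (p' := p) (q := q) (by omega) hp1' hq1 hp1
          (by simp) (List.mem_cons_of_mem _ hs2)).up hG (by omega)
      · intro Γ'' ht1 ht2 ht3
        exact (c12 (p := p') (p' := p) (q := q) (by omega) ht2 (ht1 _ hs2)).up hG (by omega)
      · intro Γ'' ht1 ht2 ht3
        exact (c22 (p := p) (p' := p') (q := q) (by omega) hp1 hp1' hq1 hne (ht1 _ hs2) ht2).up hG (by omega)

end Pool.Agent.Y528.KL
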