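import Pool.Agent.Y528.KL.Sizes

/-!
# Frege proofs of the Kneser-Lovász theorem: tools for the cases A and B
-/

set_option autoImplicit false
set_option linter.all false

namespace Pool.Agent.Y528.KL.Z529

open Pool.Agent.H555R2.PF Pool.Agent.H555R2.PF.Fm Pool.Agent.TH677.EF

variable {F : List Rule} {M : ℕ}

/-! ### sequents -/

variable {Γ : List Fm} {A B C X Y Z : Fm} {a b c e : ℕ}

theorem ctx1 (hG : Good F M) (h : Sq F M [X] A e) (hX : Sq F M Γ X a)
    (hs : (AND Γ).size + A.size + 1 ≤ M) : Sq F M Γ A (max e (a + 7) + 5) := by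
  refine Sq.ctx hG h ?_ hs
  intro W hW
  simp only [List.mem_cons, List.not_mem_nil, or_false] at hW
  subst hW
  exact hX

theorem ctx2 (hG : Good F M) (h : Sq F M [X, Y] A e) (hX : Sq F M Γ X a) (hY : Sq F M Γ Y b)
    (hs : (AND Γ).size + A.size + 1 ≤ M) : Sq F M Γ A (max e (max a b + 7) + 5) := by
  refine Sq.ctx hG h ?_ hs
  intro W hW
  simp only [List.mem_cons, List.not_mem_nil, or_false] at hW
  rcases hW with rfl | rfl
  · exact hX.up hG (le_max_left _ _)
  · exact hY.up hG (le_max_right _ _)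

end Pool.Agent.Y528.KL.Z529
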